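import Pool.Agent.Lib_helper25.PV.Defs
import Pool.Agent.Lib_helper59.PV.PhaseErgodic

/-! Project PV (MP_b08f5f_an), block B3c: the time averages with phase exist for almost every
configuration. -/

set_option autoImplicit false

namespace Pool.Agent.Lib_helper25.PV

open MeasureTheory Filter Topology Set
open scoped ComplexConjugate

noncomputable section

theorem B3c_inertia_cont (N : ℕ) : Continuous (inertia (N := N)) := by
  unfold inertia
  fun_prop

theorem B3c_inertia_nonneg {N : ℕ} (z : Conf N) : 0 ≤ inertia z :=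
  Finset.sum_nonneg fun _ _ => by positivity

/-- the configurations with moment of inertia at most `R` -/
def B3c_ball (N : ℕ) (R : ℝ) : Set (Conf N) := {z | inertia z ≤ R}

theorem B3c_meas (N : ℕ) (R : ℝ) : MeasurableSet (B3c_ball N R) :=
  (isClosed_le (B3c_inertia_cont N) continuous_const).measurableSet

theorem B3c_fin (N : ℕ) (R : ℝ) : volume (B3c_ball N R) < ⊤ := by
  have hsub : B3c_ball N R ⊆ Metric.closedBall (0 : Conf N) (Real.sqrt R) := by
    intro z hz
    have hz' : inertia z ≤ R := hz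
    rw [mem_closedBall_zero_iff]
    refine (pi_norm_le_iff_of_nonneg (Real.sqrt_nonneg _)).2 fun i => ?_
    refine Real.le_sqrt_of_sq_le ?_
    refine le_trans ?_ hz'
    unfold inertia
    exact Finset.single_le_sum (f := fun i => ‖z i‖ ^ 2) (fun j _ => by positivity)
      (Finset.mem_univ i)
  exact lt_of_le_of_lt (measure_mono hsub) measure_closedBall_lt_top

/-- the largest value of the modulus of `f` on configurations of inertia at most `r` -/
def B3c_sup {N : ℕ} (f : Conf N → ℂ) (r : ℝ) : ℝ := sSup ((fun z => ‖f z‖) '' B3c_ball N r)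

theorem B3c_bdd {N : ℕ} {f : Conf N → ℂ} (hb : ∀ R : ℝ, ∃ C, ∀ z, inertia z ≤ R → ‖f z‖ ≤ C)
    (r : ℝ) : BddAbove ((fun z => ‖f z‖) '' B3c_ball N r) := by
  obtain ⟨C, hC⟩ := hb r
  refine ⟨C, ?_⟩
  rintro _ ⟨z, hz, rfl⟩
  exact hC z hz

theorem B3c_le_sup {N : ℕ} {f : Conf N → ℂ} (hb : ∀ R : ℝ, ∃ C, ∀ z, inertia z ≤ R → ‖f z‖ ≤ C)
    {r : ℝ} {z : Conf N} (hz : inertia z ≤ r) : ‖f z‖ ≤ B3c_sup f r :=
  le_csSup (B3c_bdd hb r) ⟨z, hz, rfl⟩

theorem B3c_sup_le {N : ℕ} {f : Conf N → ℂ} {r C : ℝ} {z : Conf N} (hz : inertia z ≤ r)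
    (hC : ∀ z, inertia z ≤ r → ‖f z‖ ≤ C) : B3c_sup f r ≤ C := by
  refine csSup_le ⟨‖f z‖, z, hz, rfl⟩ ?_
  rintro _ ⟨w, hw, rfl⟩
  exact hC w hw

theorem B3c_sup_mono {N : ℕ} {f : Conf N → ℂ}
    (hb : ∀ R : ℝ, ∃ C, ∀ z, inertia z ≤ R → ‖f z‖ ≤ C) : Monotone (B3c_sup f) := by
  intro r s hrs
  by_cases h : (B3c_ball N r).Nonempty
  · obtain ⟨z, hz⟩ := h
    exact B3c_sup_le hz fun w hw => B3c_le_sup hb (le_trans hw hrs)
  · rw [Set.not_nonempty_iff_eq_empty] at h
    have h1 : B3c_sup f r = 0 := by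
      unfold B3c_sup
      rw [h, Set.image_empty, Real.sSup_empty]
    rw [h1]
    by_cases h' : (B3c_ball N s).Nonempty
    · obtain ⟨z, hz⟩ := h'
      exact (norm_nonneg _).trans (B3c_le_sup hb hz)
    · rw [Set.not_nonempty_iff_eq_empty] at h'
      unfold B3c_sup
      rw [h', Set.image_empty, Real.sSup_empty]

/-- `f` cut off at inertia `n` -/
def B3c_cut {N : ℕ} (f : Conf N → ℂ) (n : ℕ) : Conf N → ℂ := (B3c_ball N n).indicator f

theorem B3c_cut_of {N : ℕ} {f : Conf N → ℂ} {n : ℕ} {z : Conf N} (hz : inertia z ≤ n) :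
    B3c_cut f n z = f z := Set.indicator_of_mem (show z ∈ B3c_ball N n from hz) f

/-- one level -/
theorem B3c_level {N : ℕ} (V : VFlow N) (κ : ℝ) {f : Conf N → ℂ} (hf : Measurable f)
    (hb : ∀ R : ℝ, ∃ C, ∀ z, inertia z ≤ R → ‖f z‖ ≤ C) (n : ℕ) :
    ∃ g : Conf N → ℂ, Measurable g ∧
      (∀ᵐ z, inertia z ≤ n → Tendsto (fun T => avg V κ f T z) atTop (𝓝 (g z))) ∧
      ∀ s : ℝ, ∀ᵐ z, inertia z ≤ n →
        g (V.φ s z) = Complex.exp (-(κ * s * Complex.I)) * g z := by
  obtain ⟨C, hC⟩ := hb n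
  haveI : IsFiniteMeasure ((volume : Measure (Conf N)).restrict (B3c_ball N n)) :=
    ⟨by rw [Measure.restrict_apply_univ]; exact B3c_fin N n⟩
  have hmp : ∀ t, MeasurePreserving (V.φ t) ((volume : Measure (Conf N)).restrict (B3c_ball N n))
      ((volume : Measure (Conf N)).restrict (B3c_ball N n)) := by
    intro t
    have h := (V.mp t).restrict_preimage (B3c_meas N n)
    have e : V.φ t ⁻¹' B3c_ball N n = B3c_ball N n := by
      ext z
      show inertia (V.φ t z) ≤ n ↔ inertia z ≤ n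
      rw [V.inert]
    rwa [e] at h
  have hcut : Measurable (B3c_cut f n) := hf.indicator (B3c_meas N n)
  have hbound : ∀ z, ‖B3c_cut f n z‖ ≤ max C 0 := by
    intro z
    by_cases hz : inertia z ≤ n
    · rw [B3c_cut_of hz]
      exact (hC z hz).trans (le_max_left _ _)
    · have : B3c_cut f n z = 0 := Set.indicator_of_notMem (show z ∉ B3c_ball N n from hz) f
      rw [this, norm_zero]
      exact le_max_right _ _
  obtain ⟨g, hg, -, hlim, hshift⟩ := phase_ergodic
    ((volume : Measure (Conf N)).restrict (B3c_ball N n)) V.φ V.zero V.add V.meas hmp κ hcut hbound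
  refine ⟨g, hg, ?_, fun s => ?_⟩
  · rw [ae_restrict_iff' (B3c_meas N n)] at hlim
    filter_upwards [hlim] with z hz hzn
    refine (hz hzn).congr fun T => ?_
    unfold avg
    congr 1
    refine intervalIntegral.integral_congr fun t _ => ?_
    show Complex.exp (κ * t * Complex.I) * B3c_cut f n (V.φ t z) =
      Complex.exp (κ * t * Complex.I) * f (V.φ t z)
    rw [B3c_cut_of (by rw [V.inert]; exact hzn)]
  · have h := hshift s
    rw [ae_restrict_iff' (B3c_meas N n)] at h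
    exact h

theorem B3c_avg_le {N : ℕ} (V : VFlow N) (κ : ℝ) {f : Conf N → ℂ}
    (hb : ∀ R : ℝ, ∃ C, ∀ z, inertia z ≤ R → ‖f z‖ ≤ C) {T : ℝ} (hT : 0 < T) (z : Conf N) :
    ‖avg V κ f T z‖ ≤ B3c_sup f (inertia z) := by
  have h1 : ‖∫ t in (0 : ℝ)..T, Complex.exp (κ * t * Complex.I) * f (V.φ t z)‖ ≤
      B3c_sup f (inertia z) * |T - 0| := by
    refine intervalIntegral.norm_integral_le_of_norm_le_const fun t _ => ?_
    have e : ‖Complex.exp (κ * t * Complex.I)‖ = 1 := by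
      have := Complex.norm_exp_ofReal_mul_I (κ * t)
      push_cast at this
      exact this
    rw [norm_mul, e, one_mul]
    exact B3c_le_sup hb (V.inert t z).le
  unfold avg
  rw [norm_mul, norm_inv, Complex.norm_real, Real.norm_eq_abs]
  rw [sub_zero, abs_of_pos hT] at h1
  rw [abs_of_pos hT]
  calc T⁻¹ * ‖∫ t in (0 : ℝ)..T, Complex.exp (κ * t * Complex.I) * f (V.φ t z)‖
      ≤ T⁻¹ * (B3c_sup f (inertia z) * T) := by gcongr
    _ = B3c_sup f (inertia z) := by field_simp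

/-- B3c -/
theorem VFlow.avg_exists {N : ℕ} (V : VFlow N) (κ : ℝ) {f : Conf N → ℂ} (hf : Measurable f)
    (hb : ∀ R : ℝ, ∃ C, ∀ z, inertia z ≤ R → ‖f z‖ ≤ C) :
    ∃ g : Conf N → ℂ, Measurable g ∧
      (∀ R C : ℝ, (∀ z, inertia z ≤ R → ‖f z‖ ≤ C) → ∀ z, inertia z ≤ R → ‖g z‖ ≤ C) ∧
      (∀ᵐ z, Tendsto (fun T => avg V κ f T z) atTop (𝓝 (g z))) ∧
      ∀ s : ℝ, ∀ᵐ z, g (V.φ s z) = Complex.exp (-(κ * s * Complex.I)) * g z := by
  choose G hGm hGl hGs using B3c_level V κ hf hb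
  have hI := (B3c_inertia_cont N).measurable
  have hk : Measurable fun z : Conf N => ⌈inertia z⌉₊ := Nat.measurable_ceil.comp hI
  have hG : Measurable fun z : Conf N => G ⌈inertia z⌉₊ z := by
    have h1 : Measurable fun p : ℕ × Conf N => G p.1 p.2 :=
      measurable_from_prod_countable_right fun n => hGm n
    exact h1.comp (hk.prodMk measurable_id)
  have hsup : Measurable fun z : Conf N => B3c_sup f (inertia z) :=
    (B3c_sup_mono hb).measurable.comp hI
  have hset : MeasurableSet {z : Conf N | ‖G ⌈inertia z⌉₊ z‖ ≤ B3c_sup f (inertia z)} :=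
    measurableSet_le hG.norm hsup
  refine ⟨{z : Conf N | ‖G ⌈inertia z⌉₊ z‖ ≤ B3c_sup f (inertia z)}.indicator
    fun z => G ⌈inertia z⌉₊ z, hG.indicator hset, ?_, ?_, fun s => ?_⟩
  · intro R C hC z hz
    by_cases h : z ∈ {z : Conf N | ‖G ⌈inertia z⌉₊ z‖ ≤ B3c_sup f (inertia z)}
    · rw [Set.indicator_of_mem h]
      refine (show ‖G ⌈inertia z⌉₊ z‖ ≤ B3c_sup f (inertia z) from h).trans ?_
      exact B3c_sup_le le_rfl fun w hw => hC w (hw.trans hz)
    · rw [Set.indicator_of_notMem h, norm_zero]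
      exact (norm_nonneg _).trans (hC z hz)
  · filter_upwards [ae_all_iff.2 hGl] with z hz
    have hlim := hz ⌈inertia z⌉₊ (Nat.le_ceil _)
    have hle : ‖G ⌈inertia z⌉₊ z‖ ≤ B3c_sup f (inertia z) := by
      refine le_of_tendsto hlim.norm ?_
      filter_upwards [eventually_gt_atTop 0] with T hT
      exact B3c_avg_le V κ hb hT z
    have hmem : z ∈ {z : Conf N | ‖G ⌈inertia z⌉₊ z‖ ≤ B3c_sup f (inertia z)} := hle
    rw [Set.indicator_of_mem hmem]
    exact hlim
  · filter_upwards [ae_all_iff.2 fun n => hGs n s] with z hz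
    have h := hz ⌈inertia z⌉₊ (Nat.le_ceil _)
    have e : ‖Complex.exp (-(κ * s * Complex.I))‖ = 1 := by
      have := Complex.norm_exp_ofReal_mul_I (-(κ * s))
      push_cast at this
      rw [neg_mul] at this
      exact this
    by_cases hmem : z ∈ {z : Conf N | ‖G ⌈inertia z⌉₊ z‖ ≤ B3c_sup f (inertia z)}
    · have hmem' : V.φ s z ∈ {z : Conf N | ‖G ⌈inertia z⌉₊ z‖ ≤ B3c_sup f (inertia z)} := by
        show ‖G ⌈inertia (V.φ s z)⌉₊ (V.φ s z)‖ ≤ B3c_sup f (inertia (V.φ s z))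
        rw [V.inert, h, norm_mul, e, one_mul]
        exact hmem
      rw [Set.indicator_of_mem hmem, Set.indicator_of_mem hmem', V.inert, h]
    · have hmem' : V.φ s z ∉ {z : Conf N | ‖G ⌈inertia z⌉₊ z‖ ≤ B3c_sup f (inertia z)} := by
        show ¬ ‖G ⌈inertia (V.φ s z)⌉₊ (V.φ s z)‖ ≤ B3c_sup f (inertia (V.φ s z))
        rw [V.inert, h, norm_mul, e, one_mul]
        exact hmem
      rw [Set.indicator_of_notMem hmem, Set.indicator_of_notMem hmem', mul_zero]

end

end Pool.Agent.Lib_helper25.PV
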