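import Pool.Agent.Lib_helper25.PV.Defs

/-! Project PV (MP_b08f5f_an), block B10A: a bounded sequence with all correlations has only
countably many frequencies. -/

set_option autoImplicit false

namespace Pool.Agent.Lib_helper25.PV

open MeasureTheory Filter Topology Set
open scoped ComplexConjugate

noncomputable section

/-- `exp (i x k)` -/
def B10A_e (x : ℝ) (k : ℕ) : ℂ := Complex.exp (x * k * Complex.I)

theorem B10A_norm_e (x : ℝ) (k : ℕ) : ‖B10A_e x k‖ = 1 := by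
  have := Complex.norm_exp_ofReal_mul_I (x * k)
  push_cast at this
  exact this

theorem B10A_e_add (x : ℝ) (k h : ℕ) : B10A_e x (k + h) = B10A_e x k * B10A_e x h := by
  unfold B10A_e
  rw [← Complex.exp_add]
  congr 1
  push_cast
  ring

theorem B10A_e_conj (x y : ℝ) (h : ℕ) :
    B10A_e x h * conj (B10A_e y h) = Complex.exp ((x - y : ℝ) * Complex.I) ^ h := by
  unfold B10A_e
  rw [← Complex.exp_conj, ← Complex.exp_add, ← Complex.exp_nat_mul]
  congr 1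
  simp only [map_mul, Complex.conj_ofReal, Complex.conj_natCast, Complex.conj_I]
  push_cast
  ring

/-- block average -/
def B10A_S (a : ℕ → ℂ) (H : ℕ) (x : ℝ) (k : ℕ) : ℂ :=
  (H : ℂ)⁻¹ * ∑ h ∈ Finset.range H, B10A_e x h * a (k + h)

/-- Dirichlet average -/
def B10A_D (H : ℕ) (u : ℝ) : ℂ :=
  (H : ℂ)⁻¹ * ∑ h ∈ Finset.range H, Complex.exp (u * Complex.I) ^ h

theorem B10A_D_zero {H : ℕ} (hH : 0 < H) : B10A_D H 0 = 1 := by
  unfold B10A_D
  have : (H : ℂ) ≠ 0 := by exact_mod_cast hH.ne'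
  simp [this]

theorem B10A_D_tendsto {u : ℝ} (hu : Complex.exp (u * Complex.I) ≠ 1) :
    Tendsto (fun H : ℕ => ‖B10A_D H u‖) atTop (𝓝 0) := by
  have hne : Complex.exp (u * Complex.I) - 1 ≠ 0 := sub_ne_zero.2 hu
  have hb : ∀ H : ℕ, ‖B10A_D H u‖ ≤ (2 / ‖Complex.exp (u * Complex.I) - 1‖) * (H : ℝ)⁻¹ := by
    intro H
    unfold B10A_D
    rw [geom_sum_eq hu, norm_mul, norm_div, norm_inv, Complex.norm_natCast]
    have h1 : ‖Complex.exp (u * Complex.I) ^ H - 1‖ ≤ 2 := by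
      refine (norm_sub_le _ _).trans ?_
      rw [norm_pow, Complex.norm_exp_ofReal_mul_I, one_pow, norm_one]
      norm_num
    calc (H : ℝ)⁻¹ * (‖Complex.exp (u * Complex.I) ^ H - 1‖ / ‖Complex.exp (u * Complex.I) - 1‖)
        ≤ (H : ℝ)⁻¹ * (2 / ‖Complex.exp (u * Complex.I) - 1‖) := by gcongr
      _ = _ := mul_comm _ _
  have h0 : Tendsto (fun H : ℕ => (2 / ‖Complex.exp (u * Complex.I) - 1‖) * (H : ℝ)⁻¹) atTop
      (𝓝 0) := by
    have := (tendsto_inv_atTop_nhds_zero_nat (𝕜 := ℝ)).const_mul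
      (2 / ‖Complex.exp (u * Complex.I) - 1‖)
    rwa [mul_zero] at this
  exact squeeze_zero (fun _ => norm_nonneg _) hb h0

/-- the generalized Bessel inequality for one block -/
theorem B10A_bessel {a : ℕ → ℂ} {C : ℝ} (hC : ∀ n, ‖a n‖ ≤ C) {H : ℕ} (hH : 0 < H)
    (F : Finset ℝ) {η : ℝ} (hη : 0 ≤ η) (hcard : F.card * η ≤ 1)
    (hD : ∀ x ∈ F, ∀ y ∈ F, x ≠ y → ‖B10A_D H (x - y)‖ ≤ η) (k : ℕ) :
    ∑ x ∈ F, ‖B10A_S a H x k‖ ^ 2 ≤ 2 * C ^ 2 := by
  set S : ℝ → ℂ := fun x => B10A_S a H x k with hS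
  set T : ℝ := ∑ x ∈ F, ‖S x‖ ^ 2 with hT
  have hT0 : 0 ≤ T := Finset.sum_nonneg fun _ _ => by positivity
  have hHr : (0 : ℝ) < H := by exact_mod_cast hH
  set b : ℕ → ℂ := fun h => ∑ x ∈ F, conj (S x) * B10A_e x h with hb
  -- first identity
  have h1 : (T : ℂ) = (H : ℂ)⁻¹ * ∑ h ∈ Finset.range H, a (k + h) * b h := by
    have e1 : (T : ℂ) = ∑ x ∈ F, conj (S x) * S x := by
      rw [hT]
      push_cast
      refine Finset.sum_congr rfl fun x _ => ?_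
      rw [mul_comm, Complex.mul_conj, Complex.normSq_eq_norm_sq]
      push_cast
      rfl
    rw [e1]
    have e2 : ∀ x, conj (S x) * S x =
        (H : ℂ)⁻¹ * ∑ h ∈ Finset.range H, a (k + h) * (conj (S x) * B10A_e x h) := by
      intro x
      calc conj (S x) * S x = conj (S x) * ((H : ℂ)⁻¹ *
            ∑ h ∈ Finset.range H, B10A_e x h * a (k + h)) := rfl
        _ = _ := by
          rw [Finset.mul_sum, Finset.mul_sum, Finset.mul_sum]
          refine Finset.sum_congr rfl fun h _ => ?_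
          ring
    rw [Finset.sum_congr rfl fun x _ => e2 x, ← Finset.mul_sum, Finset.sum_comm]
    congr 1
    refine Finset.sum_congr rfl fun h _ => ?_
    rw [← Finset.mul_sum]
  -- second identity
  have h2 : ∀ h, ((‖b h‖ ^ 2 : ℝ) : ℂ) = ∑ x ∈ F, ∑ y ∈ F,
      conj (S x) * S y * Complex.exp ((x - y : ℝ) * Complex.I) ^ h := by
    intro h
    rw [← Complex.normSq_eq_norm_sq, ← Complex.mul_conj, hb]
    simp only [map_sum, map_mul, Complex.conj_conj]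
    rw [Finset.sum_mul_sum]
    refine Finset.sum_congr rfl fun x _ => Finset.sum_congr rfl fun y _ => ?_
    rw [← B10A_e_conj]
    ring
  have h3 : (((H : ℝ)⁻¹ * ∑ h ∈ Finset.range H, ‖b h‖ ^ 2 : ℝ) : ℂ) =
      ∑ x ∈ F, ∑ y ∈ F, conj (S x) * S y * B10A_D H (x - y) := by
    rw [Complex.ofReal_mul, Complex.ofReal_sum, Finset.sum_congr rfl fun h _ => h2 h,
      Finset.sum_comm, Finset.mul_sum]
    refine Finset.sum_congr rfl fun x _ => ?_
    rw [Finset.sum_comm, Finset.mul_sum]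
    refine Finset.sum_congr rfl fun y _ => ?_
    rw [← Finset.mul_sum]
    unfold B10A_D
    push_cast
    ring
  -- the Gram matrix
  have h4 : (H : ℝ)⁻¹ * ∑ h ∈ Finset.range H, ‖b h‖ ^ 2 ≤ 2 * T := by
    have hnn : 0 ≤ (H : ℝ)⁻¹ * ∑ h ∈ Finset.range H, ‖b h‖ ^ 2 :=
      mul_nonneg (by positivity) (Finset.sum_nonneg fun _ _ => by positivity)
    have e1 : (H : ℝ)⁻¹ * ∑ h ∈ Finset.range H, ‖b h‖ ^ 2 =
        ‖∑ x ∈ F, ∑ y ∈ F, conj (S x) * S y * B10A_D H (x - y)‖ := by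
      rw [← h3, Complex.norm_real, Real.norm_eq_abs, abs_of_nonneg hnn]
    rw [e1]
    have e2 : ∀ x ∈ F, ∀ y ∈ F, ‖conj (S x) * S y * B10A_D H (x - y)‖ ≤
        (if x = y then ‖S x‖ ^ 2 else 0) + η * (‖S x‖ * ‖S y‖) := by
      intro x hx y hy
      rw [norm_mul, norm_mul, Complex.norm_conj]
      by_cases hxy : x = y
      · subst hxy
        rw [if_pos rfl, sub_self, B10A_D_zero hH, norm_one, mul_one]
        have : 0 ≤ η * (‖S x‖ * ‖S x‖) := by positivity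
        nlinarith
      · rw [if_neg hxy, zero_add, mul_comm]
        exact mul_le_mul_of_nonneg_right (hD x hx y hy hxy) (by positivity)
    calc ‖∑ x ∈ F, ∑ y ∈ F, conj (S x) * S y * B10A_D H (x - y)‖
        ≤ ∑ x ∈ F, ∑ y ∈ F, ‖conj (S x) * S y * B10A_D H (x - y)‖ :=
          (norm_sum_le _ _).trans (Finset.sum_le_sum fun x _ => norm_sum_le _ _)
      _ ≤ ∑ x ∈ F, ∑ y ∈ F, ((if x = y then ‖S x‖ ^ 2 else 0) + η * (‖S x‖ * ‖S y‖)) :=
          Finset.sum_le_sum fun x hx => Finset.sum_le_sum fun y hy => e2 x hx y hy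
      _ = T + η * (∑ x ∈ F, ‖S x‖) ^ 2 := by
          simp only [Finset.sum_add_distrib, Finset.sum_ite_eq]
          rw [sq (∑ x ∈ F, ‖S x‖), Finset.sum_mul_sum, Finset.mul_sum]
          congr 1
          · refine Finset.sum_congr rfl fun x hx => ?_
            rw [if_pos hx]
          · refine Finset.sum_congr rfl fun x _ => ?_
            rw [Finset.mul_sum]
      _ ≤ T + η * (F.card * T) := by
          gcongr
          exact sq_sum_le_card_mul_sum_sq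
      _ = T + (F.card * η) * T := by ring
      _ ≤ T + 1 * T := by gcongr
      _ = 2 * T := by ring
  -- Cauchy-Schwarz
  have h5 : T ≤ (H : ℝ)⁻¹ * ∑ h ∈ Finset.range H, ‖a (k + h)‖ * ‖b h‖ := by
    have e1 : T = ‖(T : ℂ)‖ := by rw [Complex.norm_real, Real.norm_eq_abs, abs_of_nonneg hT0]
    rw [e1, h1, norm_mul, norm_inv, Complex.norm_natCast]
    gcongr
    refine (norm_sum_le _ _).trans (Finset.sum_le_sum fun h _ => ?_)
    rw [norm_mul]
  have h6 : T ^ 2 ≤ C ^ 2 * (2 * T) := by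
    have e1 : (∑ h ∈ Finset.range H, ‖a (k + h)‖ * ‖b h‖) ^ 2 ≤
        (∑ h ∈ Finset.range H, ‖a (k + h)‖ ^ 2) * ∑ h ∈ Finset.range H, ‖b h‖ ^ 2 :=
      Finset.sum_mul_sq_le_sq_mul_sq _ _ _
    have e2 : ∑ h ∈ Finset.range H, ‖a (k + h)‖ ^ 2 ≤ H * C ^ 2 := by
      calc ∑ h ∈ Finset.range H, ‖a (k + h)‖ ^ 2 ≤ ∑ _h ∈ Finset.range H, C ^ 2 :=
            Finset.sum_le_sum fun h _ => pow_le_pow_left₀ (norm_nonneg _) (hC _) 2
        _ = H * C ^ 2 := by rw [Finset.sum_const, Finset.card_range, nsmul_eq_mul]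
    have hB : 0 ≤ ∑ h ∈ Finset.range H, ‖b h‖ ^ 2 := Finset.sum_nonneg fun _ _ => by positivity
    calc T ^ 2 ≤ ((H : ℝ)⁻¹ * ∑ h ∈ Finset.range H, ‖a (k + h)‖ * ‖b h‖) ^ 2 :=
          pow_le_pow_left₀ hT0 h5 2
      _ = (H : ℝ)⁻¹ ^ 2 * (∑ h ∈ Finset.range H, ‖a (k + h)‖ * ‖b h‖) ^ 2 := by ring
      _ ≤ (H : ℝ)⁻¹ ^ 2 * ((H * C ^ 2) * ∑ h ∈ Finset.range H, ‖b h‖ ^ 2) := by
          gcongr
          exact e1.trans (mul_le_mul_of_nonneg_right e2 hB)
      _ = C ^ 2 * ((H : ℝ)⁻¹ * ∑ h ∈ Finset.range H, ‖b h‖ ^ 2) := by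
          field_simp
      _ ≤ C ^ 2 * (2 * T) := by gcongr
  show T ≤ 2 * C ^ 2
  by_contra hcon
  push Not at hcon
  have hTpos : 0 < T := lt_of_le_of_lt (by positivity) hcon
  nlinarith

/-- shift of a Cesaro limit -/
theorem B10A_shift_bound {u : ℕ → ℂ} {M : ℝ} (hM : ∀ n, ‖u n‖ ≤ M) (n s : ℕ) :
    ‖∑ k ∈ Finset.range n, u (k + s) - ∑ k ∈ Finset.range n, u k‖ ≤ 2 * s * M := by
  have e : ∑ k ∈ Finset.range n, u (k + s) - ∑ k ∈ Finset.range n, u k =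
      ∑ k ∈ Finset.range s, u (n + k) - ∑ k ∈ Finset.range s, u k := by
    have h1 := Finset.sum_range_add u n s
    have h2 := Finset.sum_range_add u s n
    rw [Nat.add_comm s n] at h2
    have h3 : ∑ x ∈ Finset.range n, u (s + x) = ∑ k ∈ Finset.range n, u (k + s) :=
      Finset.sum_congr rfl fun k _ => by rw [Nat.add_comm]
    rw [← h3]
    rw [h1] at h2
    linear_combination -h2
  rw [e]
  refine (norm_sub_le _ _).trans ?_
  have h1 : ∀ w : ℕ → ℂ, (∀ k, ‖w k‖ ≤ M) → ‖∑ k ∈ Finset.range s, w k‖ ≤ s * M := by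
    intro w hw
    refine (norm_sum_le _ _).trans ?_
    calc ∑ k ∈ Finset.range s, ‖w k‖ ≤ ∑ _k ∈ Finset.range s, M :=
          Finset.sum_le_sum fun k _ => hw k
      _ = s * M := by rw [Finset.sum_const, Finset.card_range, nsmul_eq_mul]
  have h2 := h1 (fun k => u (n + k)) fun k => hM _
  have h3 := h1 u hM
  linarith

theorem B10A_shift {u : ℕ → ℂ} {M : ℝ} (hM : ∀ n, ‖u n‖ ≤ M) {l : ℂ}
    (hu : Tendsto (fun n : ℕ => (n : ℂ)⁻¹ * ∑ k ∈ Finset.range n, u k) atTop (𝓝 l)) (s : ℕ) :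
    Tendsto (fun n : ℕ => (n : ℂ)⁻¹ * ∑ k ∈ Finset.range n, u (k + s)) atTop (𝓝 l) := by
  have h0 : Tendsto (fun n : ℕ => (n : ℂ)⁻¹ * ∑ k ∈ Finset.range n, u (k + s) -
      (n : ℂ)⁻¹ * ∑ k ∈ Finset.range n, u k) atTop (𝓝 0) := by
    rw [tendsto_zero_iff_norm_tendsto_zero]
    have hb : ∀ n : ℕ, ‖(n : ℂ)⁻¹ * ∑ k ∈ Finset.range n, u (k + s) -
        (n : ℂ)⁻¹ * ∑ k ∈ Finset.range n, u k‖ ≤ (2 * s * M) * (n : ℝ)⁻¹ := by
      intro n
      rw [← mul_sub, norm_mul, norm_inv, Complex.norm_natCast, mul_comm]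
      gcongr
      exact B10A_shift_bound hM n s
    have h1 : Tendsto (fun n : ℕ => (2 * s * M) * (n : ℝ)⁻¹) atTop (𝓝 0) := by
      have := (tendsto_inv_atTop_nhds_zero_nat (𝕜 := ℝ)).const_mul (2 * s * M)
      rwa [mul_zero] at this
    exact squeeze_zero (fun _ => norm_nonneg _) hb h1
  have := h0.add hu
  rw [zero_add] at this
  refine this.congr fun n => ?_
  ring

/-- all correlations exist -/
theorem B10A_corr {a : ℕ → ℂ} {C : ℝ} (hC : ∀ n, ‖a n‖ ≤ C)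
    (hγ : ∀ j : ℕ, ∃ l : ℂ, Tendsto (fun n : ℕ =>
      (n : ℂ)⁻¹ * ∑ k ∈ Finset.range n, a (k + j) * conj (a k)) atTop (𝓝 l)) (h h' : ℕ) :
    ∃ l : ℂ, Tendsto (fun n : ℕ =>
      (n : ℂ)⁻¹ * ∑ k ∈ Finset.range n, a (k + h) * conj (a (k + h'))) atTop (𝓝 l) := by
  have hC0 : 0 ≤ C := (norm_nonneg _).trans (hC 0)
  have key : ∀ h h' : ℕ, h' ≤ h → ∃ l : ℂ, Tendsto (fun n : ℕ =>
      (n : ℂ)⁻¹ * ∑ k ∈ Finset.range n, a (k + h) * conj (a (k + h'))) atTop (𝓝 l) := by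
    intro h h' hle
    obtain ⟨j, rfl⟩ := Nat.exists_eq_add_of_le hle
    obtain ⟨l, hl⟩ := hγ j
    refine ⟨l, ?_⟩
    have hb : ∀ n, ‖a (n + j) * conj (a n)‖ ≤ C * C := by
      intro n
      rw [norm_mul, Complex.norm_conj]
      exact mul_le_mul (hC _) (hC _) (norm_nonneg _) hC0
    refine (B10A_shift (u := fun n => a (n + j) * conj (a n)) hb hl h').congr fun n => ?_
    congr 1
    refine Finset.sum_congr rfl fun k _ => ?_
    rw [show k + h' + j = k + (h' + j) by ring]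
  rcases le_total h' h with hle | hle
  · exact key h h' hle
  · obtain ⟨l, hl⟩ := key h' h hle
    refine ⟨conj l, ?_⟩
    have := (Complex.continuous_conj.tendsto l).comp hl
    refine this.congr fun n => ?_
    simp only [Function.comp_apply, map_mul, map_inv₀, map_sum, Complex.conj_natCast,
      Complex.conj_conj]
    congr 1
    refine Finset.sum_congr rfl fun k _ => mul_comm _ _

/-- the mean square of the block averages converges -/
theorem B10A_exists_p {a : ℕ → ℂ} {C : ℝ} (hC : ∀ n, ‖a n‖ ≤ C)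
    (hγ : ∀ j : ℕ, ∃ l : ℂ, Tendsto (fun n : ℕ =>
      (n : ℂ)⁻¹ * ∑ k ∈ Finset.range n, a (k + j) * conj (a k)) atTop (𝓝 l)) (H : ℕ) (x : ℝ) :
    ∃ p : ℝ, Tendsto (fun n : ℕ => (n : ℝ)⁻¹ * ∑ k ∈ Finset.range n, ‖B10A_S a H x k‖ ^ 2) atTop
      (𝓝 p) := by
  choose l hl using B10A_corr hC hγ
  have h1 : Tendsto (fun n : ℕ => ∑ h ∈ Finset.range H, ∑ h' ∈ Finset.range H,
      ((H : ℂ)⁻¹ * (H : ℂ)⁻¹ * (B10A_e x h * conj (B10A_e x h'))) *
        ((n : ℂ)⁻¹ * ∑ k ∈ Finset.range n, a (k + h) * conj (a (k + h')))) atTop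
      (𝓝 (∑ h ∈ Finset.range H, ∑ h' ∈ Finset.range H,
        ((H : ℂ)⁻¹ * (H : ℂ)⁻¹ * (B10A_e x h * conj (B10A_e x h'))) * l h h')) :=
    tendsto_finsetSum _ fun h _ => tendsto_finsetSum _ fun h' _ => (hl h h').const_mul _
  have h2 := (Complex.continuous_re.tendsto _).comp h1
  refine ⟨_, h2.congr fun n => ?_⟩
  have e : (((n : ℝ)⁻¹ * ∑ k ∈ Finset.range n, ‖B10A_S a H x k‖ ^ 2 : ℝ) : ℂ) =
      ∑ h ∈ Finset.range H, ∑ h' ∈ Finset.range H,
      ((H : ℂ)⁻¹ * (H : ℂ)⁻¹ * (B10A_e x h * conj (B10A_e x h'))) *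
        ((n : ℂ)⁻¹ * ∑ k ∈ Finset.range n, a (k + h) * conj (a (k + h'))) := by
    have e1 : ∀ k, ((‖B10A_S a H x k‖ ^ 2 : ℝ) : ℂ) =
        ∑ h ∈ Finset.range H, ∑ h' ∈ Finset.range H,
          ((H : ℂ)⁻¹ * (H : ℂ)⁻¹ * (B10A_e x h * conj (B10A_e x h'))) *
            (a (k + h) * conj (a (k + h'))) := by
      intro k
      rw [← Complex.normSq_eq_norm_sq, ← Complex.mul_conj]
      unfold B10A_S
      simp only [map_mul, map_sum, map_inv₀, Complex.conj_natCast]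
      rw [show ∀ A B c : ℂ, (c * A) * (c * B) = (c * c) * (A * B) by intros; ring]
      rw [Finset.sum_mul_sum, Finset.mul_sum]
      refine Finset.sum_congr rfl fun h _ => ?_
      rw [Finset.mul_sum]
      refine Finset.sum_congr rfl fun h' _ => ?_
      ring
    rw [Complex.ofReal_mul, Complex.ofReal_sum, Finset.sum_congr rfl fun k _ => e1 k,
      Finset.sum_comm, Finset.mul_sum]
    refine Finset.sum_congr rfl fun h _ => ?_
    rw [Finset.sum_comm, Finset.mul_sum]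
    refine Finset.sum_congr rfl fun h' _ => ?_
    rw [← Finset.mul_sum]
    push_cast
    ring
  show (∑ h ∈ Finset.range H, ∑ h' ∈ Finset.range H,
      ((H : ℂ)⁻¹ * (H : ℂ)⁻¹ * (B10A_e x h * conj (B10A_e x h'))) *
        ((n : ℂ)⁻¹ * ∑ k ∈ Finset.range n, a (k + h) * conj (a (k + h')))).re = _
  rw [← e, Complex.ofReal_re]

/-- van der Corput: the averages are bounded by the mean square of the block averages -/
theorem B10A_avg_le {a : ℕ → ℂ} {C : ℝ} (hC : ∀ n, ‖a n‖ ≤ C) {H : ℕ} (hH : 0 < H) (x : ℝ)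
    (n : ℕ) :
    ‖(n : ℂ)⁻¹ * ∑ k ∈ Finset.range n, B10A_e x k * a k‖ ≤
      Real.sqrt ((n : ℝ)⁻¹ * ∑ k ∈ Finset.range n, ‖B10A_S a H x k‖ ^ 2) +
        (2 * H * C) * (n : ℝ)⁻¹ := by
  have hC0 : 0 ≤ C := (norm_nonneg _).trans (hC 0)
  have hHc : (H : ℂ) ≠ 0 := by exact_mod_cast hH.ne'
  have hHr : (0 : ℝ) < H := by exact_mod_cast hH
  set v : ℕ → ℂ := fun k => B10A_e x k * a k with hv
  have hvb : ∀ k, ‖v k‖ ≤ C := by
    intro k
    rw [hv]
    simp only [norm_mul, B10A_norm_e, one_mul]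
    exact hC k
  have e1 : ∑ k ∈ Finset.range n, B10A_e x k * B10A_S a H x k =
      (H : ℂ)⁻¹ * ∑ h ∈ Finset.range H, ∑ k ∈ Finset.range n, v (k + h) := by
    rw [Finset.sum_comm, Finset.mul_sum]
    refine Finset.sum_congr rfl fun k _ => ?_
    unfold B10A_S
    rw [Finset.mul_sum, Finset.mul_sum, Finset.mul_sum]
    refine Finset.sum_congr rfl fun h _ => ?_
    rw [hv]
    simp only [B10A_e_add]
    ring
  have e2 : ∑ k ∈ Finset.range n, v k =
      (H : ℂ)⁻¹ * ∑ _h ∈ Finset.range H, ∑ k ∈ Finset.range n, v k := by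
    rw [Finset.sum_const, Finset.card_range, nsmul_eq_mul]
    field_simp
  have h1 : ‖∑ k ∈ Finset.range n, v k - ∑ k ∈ Finset.range n, B10A_e x k * B10A_S a H x k‖ ≤
      2 * H * C := by
    rw [e1, e2, ← mul_sub, ← Finset.sum_sub_distrib, norm_mul, norm_inv, Complex.norm_natCast]
    have h2 : ‖∑ h ∈ Finset.range H,
        (∑ k ∈ Finset.range n, v k - ∑ k ∈ Finset.range n, v (k + h))‖ ≤ H * (2 * H * C) := by
      refine (norm_sum_le _ _).trans ?_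
      calc ∑ h ∈ Finset.range H,
            ‖∑ k ∈ Finset.range n, v k - ∑ k ∈ Finset.range n, v (k + h)‖
          ≤ ∑ _h ∈ Finset.range H, 2 * H * C := by
            refine Finset.sum_le_sum fun h hh => ?_
            rw [norm_sub_rev]
            refine (B10A_shift_bound hvb n h).trans ?_
            have : (h : ℝ) ≤ H := by exact_mod_cast (Finset.mem_range.1 hh).le
            gcongr
        _ = H * (2 * H * C) := by rw [Finset.sum_const, Finset.card_range, nsmul_eq_mul]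
    calc (H : ℝ)⁻¹ * ‖∑ h ∈ Finset.range H,
          (∑ k ∈ Finset.range n, v k - ∑ k ∈ Finset.range n, v (k + h))‖
        ≤ (H : ℝ)⁻¹ * (H * (2 * H * C)) := by gcongr
      _ = 2 * H * C := by field_simp
  have h3 : ‖(n : ℂ)⁻¹ * ∑ k ∈ Finset.range n, B10A_e x k * B10A_S a H x k‖ ≤
      Real.sqrt ((n : ℝ)⁻¹ * ∑ k ∈ Finset.range n, ‖B10A_S a H x k‖ ^ 2) := by
    refine Real.le_sqrt_of_sq_le ?_
    rw [norm_mul, norm_inv, Complex.norm_natCast, mul_pow]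
    have h4 : ‖∑ k ∈ Finset.range n, B10A_e x k * B10A_S a H x k‖ ≤
        ∑ k ∈ Finset.range n, ‖B10A_S a H x k‖ := by
      refine (norm_sum_le _ _).trans (le_of_eq ?_)
      refine Finset.sum_congr rfl fun k _ => ?_
      rw [norm_mul, B10A_norm_e, one_mul]
    have h5 : (∑ k ∈ Finset.range n, ‖B10A_S a H x k‖) ^ 2 ≤
        n * ∑ k ∈ Finset.range n, ‖B10A_S a H x k‖ ^ 2 := by
      have := sq_sum_le_card_mul_sum_sq (s := Finset.range n) (f := fun k => ‖B10A_S a H x k‖)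
      rwa [Finset.card_range] at this
    rcases Nat.eq_zero_or_pos n with hn | hn
    · subst hn
      simp
    have hnr : (0 : ℝ) < n := by exact_mod_cast hn
    calc (n : ℝ)⁻¹ ^ 2 * ‖∑ k ∈ Finset.range n, B10A_e x k * B10A_S a H x k‖ ^ 2
        ≤ (n : ℝ)⁻¹ ^ 2 * (n * ∑ k ∈ Finset.range n, ‖B10A_S a H x k‖ ^ 2) := by
          gcongr
          exact (pow_le_pow_left₀ (norm_nonneg _) h4 2).trans h5
      _ = (n : ℝ)⁻¹ * ∑ k ∈ Finset.range n, ‖B10A_S a H x k‖ ^ 2 := by field_simp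
  have h6 : (n : ℂ)⁻¹ * ∑ k ∈ Finset.range n, v k =
      (n : ℂ)⁻¹ * ∑ k ∈ Finset.range n, B10A_e x k * B10A_S a H x k +
      (n : ℂ)⁻¹ * (∑ k ∈ Finset.range n, v k -
        ∑ k ∈ Finset.range n, B10A_e x k * B10A_S a H x k) := by ring
  show ‖(n : ℂ)⁻¹ * ∑ k ∈ Finset.range n, v k‖ ≤ _
  rw [h6]
  refine (norm_add_le _ _).trans (add_le_add h3 ?_)
  rw [norm_mul, norm_inv, Complex.norm_natCast, mul_comm]
  gcongr

/-- a frequency of size `δ` is seen by every mean square -/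
theorem B10A_sq_le {a : ℕ → ℂ} {C : ℝ} (hC : ∀ n, ‖a n‖ ≤ C) {H : ℕ} (hH : 0 < H) {x δ p : ℝ}
    (hδ : 0 ≤ δ)
    (hp : Tendsto (fun n : ℕ => (n : ℝ)⁻¹ * ∑ k ∈ Finset.range n, ‖B10A_S a H x k‖ ^ 2) atTop
      (𝓝 p))
    (hx : ∃ᶠ n : ℕ in atTop, δ ≤ ‖(n : ℂ)⁻¹ * ∑ k ∈ Finset.range n, B10A_e x k * a k‖) :
    δ ^ 2 ≤ p := by
  have hp0 : 0 ≤ p := ge_of_tendsto' hp fun n =>
    mul_nonneg (by positivity) (Finset.sum_nonneg fun _ _ => by positivity)
  have h1 : Tendsto (fun n : ℕ =>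
      Real.sqrt ((n : ℝ)⁻¹ * ∑ k ∈ Finset.range n, ‖B10A_S a H x k‖ ^ 2) +
        (2 * H * C) * (n : ℝ)⁻¹) atTop (𝓝 (Real.sqrt p)) := by
    have e1 := (Real.continuous_sqrt.tendsto p).comp hp
    have e2 := (tendsto_inv_atTop_nhds_zero_nat (𝕜 := ℝ)).const_mul (2 * H * C)
    have := e1.add e2
    rw [mul_zero, add_zero] at this
    exact this
  have h2 : δ ≤ Real.sqrt p := by
    by_contra hcon
    push Not at hcon
    have h3 := h1.eventually (eventually_lt_nhds hcon)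
    obtain ⟨n, hn, hn'⟩ := (hx.and_eventually h3).exists
    exact absurd (hn.trans (B10A_avg_le hC hH x n)) (not_le.2 hn')
  exact (Real.le_sqrt hδ hp0).1 h2

/-- finitely many frequencies of size `δ` in a period -/
theorem B10A_card {a : ℕ → ℂ} {C : ℝ} (hC : ∀ n, ‖a n‖ ≤ C)
    (hγ : ∀ j : ℕ, ∃ l : ℂ, Tendsto (fun n : ℕ =>
      (n : ℂ)⁻¹ * ∑ k ∈ Finset.range n, a (k + j) * conj (a k)) atTop (𝓝 l))
    {δ : ℝ} (hδ : 0 ≤ δ) (F : Finset ℝ)
    (hF : ∀ x ∈ F, ∀ y ∈ F, x ≠ y → Complex.exp ((x - y : ℝ) * Complex.I) ≠ 1)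
    (hx : ∀ x ∈ F, ∃ᶠ n : ℕ in atTop,
      δ ≤ ‖(n : ℂ)⁻¹ * ∑ k ∈ Finset.range n, B10A_e x k * a k‖) :
    F.card * δ ^ 2 ≤ 2 * C ^ 2 := by
  have hη : (0 : ℝ) < 1 / (F.card + 1) := by positivity
  have h1 : ∀ᶠ H : ℕ in atTop, ∀ x ∈ F, ∀ y ∈ F, x ≠ y →
      ‖B10A_D H (x - y)‖ ≤ 1 / (F.card + 1) := by
    rw [Filter.eventually_all_finset]
    intro x hx
    rw [Filter.eventually_all_finset]
    intro y hy
    by_cases hxy : x = y
    · exact Eventually.of_forall fun H h => absurd hxy h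
    · filter_upwards [(B10A_D_tendsto (hF x hx y hy hxy)).eventually (eventually_lt_nhds hη)]
        with H hH _
      exact hH.le
  obtain ⟨H, hD, hH⟩ := (h1.and (eventually_gt_atTop 0)).exists
  have hcard : (F.card : ℝ) * (1 / (F.card + 1)) ≤ 1 := by
    rw [mul_one_div, div_le_one (by positivity)]
    linarith
  have hB := B10A_bessel hC hH F hη.le hcard hD
  choose p hp using B10A_exists_p hC hγ H
  have h2 : Tendsto (fun n : ℕ => ∑ x ∈ F,
      ((n : ℝ)⁻¹ * ∑ k ∈ Finset.range n, ‖B10A_S a H x k‖ ^ 2)) atTop (𝓝 (∑ x ∈ F, p x)) :=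
    tendsto_finsetSum _ fun x _ => hp x
  have h3 : ∑ x ∈ F, p x ≤ 2 * C ^ 2 := by
    refine le_of_tendsto' h2 fun n => ?_
    rw [← Finset.mul_sum, Finset.sum_comm]
    rcases Nat.eq_zero_or_pos n with hn | hn
    · subst hn
      simp
      positivity
    have hnr : (0 : ℝ) < n := by exact_mod_cast hn
    calc (n : ℝ)⁻¹ * ∑ k ∈ Finset.range n, ∑ x ∈ F, ‖B10A_S a H x k‖ ^ 2
        ≤ (n : ℝ)⁻¹ * ∑ _k ∈ Finset.range n, 2 * C ^ 2 := by
          gcongr with k _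
          exact hB k
      _ = 2 * C ^ 2 := by
          rw [Finset.sum_const, Finset.card_range, nsmul_eq_mul]
          field_simp
  calc F.card * δ ^ 2 = ∑ _x ∈ F, δ ^ 2 := by rw [Finset.sum_const, nsmul_eq_mul]
    _ ≤ ∑ x ∈ F, p x := Finset.sum_le_sum fun x hxF => B10A_sq_le hC hH hδ (hp x) (hx x hxF)
    _ ≤ 2 * C ^ 2 := h3

theorem B10A_distinct {x y : ℝ} (hxy : x ≠ y) (h : |x - y| < 2 * Real.pi) :
    Complex.exp ((x - y : ℝ) * Complex.I) ≠ 1 := by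
  intro he
  rw [Complex.exp_eq_one_iff] at he
  obtain ⟨n, hn⟩ := he
  have h1 : ((x - y : ℝ) : ℂ) = ((n * (2 * Real.pi) : ℝ) : ℂ) := by
    have hI := Complex.I_ne_zero
    apply mul_right_cancel₀ hI
    rw [hn]
    push_cast
    ring
  have h2 : x - y = n * (2 * Real.pi) := by exact_mod_cast h1
  rcases eq_or_ne n 0 with h0 | h0
  · rw [h0] at h2
    apply hxy
    simp at h2
    linarith
  · have h3 : (1 : ℝ) ≤ |(n : ℝ)| := by
      have := Int.one_le_abs h0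
      exact_mod_cast this
    rw [h2, abs_mul, abs_of_pos Real.two_pi_pos] at h
    nlinarith [Real.two_pi_pos]

/-- B10A -/
theorem countable_freq {a : ℕ → ℂ} {C : ℝ} (hC : ∀ n, ‖a n‖ ≤ C)
    (hγ : ∀ j : ℕ, ∃ l : ℂ, Tendsto (fun n : ℕ =>
      (n : ℂ)⁻¹ * ∑ k ∈ Finset.range n, a (k + j) * conj (a k)) atTop (𝓝 l)) :
    {x : ℝ | ¬ Tendsto (fun n : ℕ => (n : ℂ)⁻¹ * ∑ k ∈ Finset.range n,
      Complex.exp (x * k * Complex.I) * a k) atTop (𝓝 0)}.Countable := by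
  have hfin : ∀ (m : ℕ) (j : ℤ), {x : ℝ | x ∈ Ico (2 * Real.pi * j) (2 * Real.pi * (j + 1)) ∧
      ∃ᶠ n : ℕ in atTop, 1 / ((m : ℝ) + 1) ≤
        ‖(n : ℂ)⁻¹ * ∑ k ∈ Finset.range n, B10A_e x k * a k‖}.Finite := by
    intro m j
    by_contra hinf
    obtain ⟨K, hK⟩ := exists_nat_gt (2 * C ^ 2 * ((m : ℝ) + 1) ^ 2)
    obtain ⟨F, hFs, hFc⟩ := Set.Infinite.exists_subset_card_eq hinf K
    have h1 := B10A_card hC hγ (δ := 1 / ((m : ℝ) + 1)) (by positivity) F ?_ ?_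
    · rw [hFc] at h1
      have hm : (0 : ℝ) < (m : ℝ) + 1 := by positivity
      rw [one_div, inv_pow, ← div_eq_mul_inv, div_le_iff₀ (by positivity)] at h1
      linarith
    · intro x hx y hy hxy
      have hx' := (hFs hx).1
      have hy' := (hFs hy).1
      refine B10A_distinct hxy ?_
      rw [abs_lt]
      obtain ⟨a1, a2⟩ := hx'
      obtain ⟨b1, b2⟩ := hy'
      constructor <;> nlinarith
    · intro x hx
      exact (hFs hx).2
  have hsub : {x : ℝ | ¬ Tendsto (fun n : ℕ => (n : ℂ)⁻¹ * ∑ k ∈ Finset.range n,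
      Complex.exp (x * k * Complex.I) * a k) atTop (𝓝 0)} ⊆
      ⋃ m : ℕ, ⋃ j : ℤ, {x : ℝ | x ∈ Ico (2 * Real.pi * j) (2 * Real.pi * (j + 1)) ∧
      ∃ᶠ n : ℕ in atTop, 1 / ((m : ℝ) + 1) ≤
        ‖(n : ℂ)⁻¹ * ∑ k ∈ Finset.range n, B10A_e x k * a k‖} := by
    intro x hx
    have hx' : ¬ Tendsto (fun n : ℕ => (n : ℂ)⁻¹ * ∑ k ∈ Finset.range n,
      Complex.exp (x * k * Complex.I) * a k) atTop (𝓝 0) := hx
    rw [Metric.tendsto_nhds] at hx'
    push Not at hx'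
    obtain ⟨ε, hε, h1⟩ := hx'
    obtain ⟨m, hm⟩ := exists_nat_one_div_lt hε
    refine mem_iUnion.2 ⟨m, mem_iUnion.2 ⟨⌊x / (2 * Real.pi)⌋, ?_, ?_⟩⟩
    · have hpi := Real.two_pi_pos
      have f1 := Int.floor_le (x / (2 * Real.pi))
      have f2 := Int.lt_floor_add_one (x / (2 * Real.pi))
      rw [le_div_iff₀ hpi] at f1
      rw [div_lt_iff₀ hpi] at f2
      constructor <;> linarith
    · refine h1.mono fun n hn => ?_
      rw [dist_zero_right] at hn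
      exact hm.le.trans hn
  exact (countable_iUnion fun m => countable_iUnion fun j => (hfin m j).countable).mono hsub

end

end Pool.Agent.Lib_helper25.PV
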